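import Mathlib

set_option autoImplicit false

namespace Pool.Agent.Results.MP_90eaab_co.Depends

open Set Metric

/-- Euclidean space -/
abbrev E (k : ℕ) : Type := EuclideanSpace ℝ (Fin k)

/-- the Newton covering number -/
noncomputable def N {k : ℕ} (C : Set (E k)) : ℕ∞ :=
  ⨅ (n : ℕ) (_ : ∃ (f : Fin n → E k ≃ᵢ E k) (U : Set (E k)), IsOpen U ∧ C ⊆ U ∧
    U ⊆ ⋃ i, f i '' C), (n : ℕ∞)

/-- the right pyramid of height `h` over the `k`-cube -/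
def pyr (k : ℕ) (h : ℝ) : Set (E (k + 1)) :=
  convexHull ℝ ({x | (∀ i : Fin k, x i.castSucc ∈ Icc (0 : ℝ) 1) ∧ x (Fin.last k) = 0} ∪
    {x | (∀ i : Fin k, x i.castSucc = 1 / 2) ∧ x (Fin.last k) = h})

lemma diam (h : ℝ) (hh : h ^ 2 = 3 / 2) (x y : E 3) (hx : x ∈ pyr 2 h) (hy : y ∈ pyr 2 h) :
    dist x y ^ 2 ≤ 2 := by
  obtain ⟨x', hx', y', hy', e⟩ := convexHull_exists_dist_ge2 hx hy
  refine (pow_le_pow_left₀ dist_nonneg e 2).trans ?_
  rw [EuclideanSpace.dist_eq, Real.sq_sqrt (by positivity)]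
  simp only [Fin.sum_univ_three, Real.dist_eq, sq_abs]
  rcases hx' with ⟨h1, h2⟩ | ⟨h1, h2⟩ <;> rcases hy' with ⟨h3, h4⟩ | ⟨h3, h4⟩
  all_goals
    have a0 := h1 0; have a1 := h1 1; have a2 : x' 2 = _ := h2
    have b0 := h3 0; have b1 := h3 1; have b2 : y' 2 = _ := h4
    simp only [Fin.castSucc_zero, Fin.castSucc_one, mem_Icc] at a0 a1 b0 b1
    rw [a2, b2]
  · nlinarith [a0.1, a0.2, a1.1, a1.2, b0.1, b0.2, b1.1, b1.2]
  · rw [b0, b1]; nlinarith [a0.1, a0.2, a1.1, a1.2]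
  · rw [a0, a1]; nlinarith [b0.1, b0.2, b1.1, b1.2]
  · rw [a0, a1, b0, b1]; norm_num

lemma three_le (h : ℝ) (h0 : 0 < h) (hh : h ^ 2 = 3 / 2) : 3 ≤ N (pyr 2 h) := by
  refine le_iInf₂ fun n ⟨f, U, hU, hC, hf⟩ => ?_
  let v : Fin 3 → ℝ → E 3 := fun i t =>
    ![!₂[-t, -t, 0], !₂[1 + t, 1 + t, 0], !₂[1 / 2, 1 / 2, h + t]] i
  have hv : ∀ i, ∀ᶠ t in nhds (0 : ℝ), v i t ∈ U := fun i => by
    have c : Continuous (v i) := by
      fin_cases i <;> simp only [v] <;>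
        exact (PiLp.continuous_toLp 2 _).comp (continuous_pi fun j => by
          fin_cases j <;> simp <;> fun_prop)
    refine c.continuousAt.eventually (hU.mem_nhds (hC (subset_convexHull ℝ _ ?_)))
    fin_cases i
    · exact Or.inl ⟨fun j => by fin_cases j <;> simp [v], rfl⟩
    · exact Or.inl ⟨fun j => by fin_cases j <;> simp [v], rfl⟩
    · exact Or.inr ⟨fun j => by fin_cases j <;> simp [v], by simp [v]⟩
  obtain ⟨t, ht, t0⟩ := (((Filter.eventually_all.2 hv).filter_mono nhdsWithin_le_nhds).and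
    (self_mem_nhdsWithin (s := Ioi 0))).exists
  have t0 : 0 < t := t0
  choose c x hx e using fun i => mem_iUnion.1 (hf (ht i))
  have : Function.Injective c := fun i j hij => by
    have d := diam h hh _ _ (hx i) (hx j)
    rw [← (f (c i)).dist_eq, e i, hij, e j, EuclideanSpace.dist_eq, Real.sq_sqrt (by positivity)]
      at d
    simp only [Fin.sum_univ_three, Real.dist_eq, sq_abs] at d
    fin_cases i <;> fin_cases j <;> first | rfl | (simp [v] at d; nlinarith [mul_pos h0 t0])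
  exact_mod_cast (by simpa using Fintype.card_le_of_injective c this : 3 ≤ n)

lemma mem_pyr (x : E 3) : x ∈ pyr 2 10 → 0 ≤ x 2 ∧ x 2 / 20 ≤ x 0 ∧ x 0 ≤ 1 - x 2 / 20 ∧
    x 2 / 20 ≤ x 1 ∧ x 1 ≤ 1 - x 2 / 20 := by
  intro h
  refine convexHull_min (t := {x : E 3 | 0 ≤ x 2 ∧ x 2 / 20 ≤ x 0 ∧ x 0 ≤ 1 - x 2 / 20 ∧
    x 2 / 20 ≤ x 1 ∧ x 1 ≤ 1 - x 2 / 20}) ?_ ?_ h
  · rintro y (⟨h1, h2⟩ | ⟨h1, h2⟩)
    · have a0 : y 0 ∈ Icc (0 : ℝ) 1 := h1 0
      have a1 : y 1 ∈ Icc (0 : ℝ) 1 := h1 1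
      have a2 : y 2 = 0 := h2
      simp [a2, a0.1, a0.2, a1.1, a1.2]
    · have a0 : y 0 = 1 / 2 := h1 0
      have a1 : y 1 = 1 / 2 := h1 1
      have a2 : y 2 = 10 := h2
      simp only [mem_setOf_eq, a0, a1, a2]; norm_num
  · rintro y ⟨a1, a2, a3, a4, a5⟩ z ⟨b1, b2, b3, b4, b5⟩ s t hs ht hst
    simp only [mem_setOf_eq, PiLp.add_apply, PiLp.smul_apply, smul_eq_mul]
    refine ⟨by positivity, ?_, ?_, ?_, ?_⟩ <;> nlinarith

lemma pyr_mem (x : E 3) (h0 : 0 ≤ x 2) (h1 : x 2 / 20 ≤ x 0) (h2 : x 0 ≤ 1 - x 2 / 20)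
    (h3 : x 2 / 20 ≤ x 1) (h4 : x 1 ≤ 1 - x 2 / 20) : x ∈ pyr 2 10 := by
  rcases eq_or_lt_of_le (show x 2 ≤ 10 by linarith) with h | h
  · refine subset_convexHull _ _ (Or.inr ⟨fun i => ?_, h⟩)
    fin_cases i
    · show x 0 = 1 / 2; linarith
    · show x 1 = 1 / 2; linarith
  have hp : 0 < 1 - x 2 / 10 := by linarith
  have m1 : (!₂[(x 0 - x 2 / 20) / (1 - x 2 / 10), (x 1 - x 2 / 20) / (1 - x 2 / 10), 0] : E 3)
      ∈ pyr 2 10 := subset_convexHull ℝ _ (Or.inl ⟨fun i => by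
    fin_cases i
    · exact ⟨div_nonneg (by linarith) hp.le, div_le_one_of_le₀ (by linarith) hp.le⟩
    · exact ⟨div_nonneg (by linarith) hp.le, div_le_one_of_le₀ (by linarith) hp.le⟩, rfl⟩)
  have m2 : (!₂[1 / 2, 1 / 2, 10] : E 3) ∈ pyr 2 10 :=
    subset_convexHull ℝ _ (Or.inr ⟨fun i => by fin_cases i <;> rfl, rfl⟩)
  have := convex_convexHull ℝ _ m1 m2 hp.le (by positivity : 0 ≤ x 2 / 10) (by ring)
  unfold pyr
  convert this
  ext i
  fin_cases i <;> simp [mul_div_cancel₀ _ hp.ne'] <;> ring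

/-- a rotation putting the base into a vertical section -/
noncomputable def g : E 3 ≃ᵢ E 3 where
  toFun x := !₂[1 / 2 + 4 / 5 * (x 0 - 1 / 2) - 3 / 5 * x 2,
    1 / 2 + 3 / 5 * (x 0 - 1 / 2) + 4 / 5 * x 2, x 1 + 1 / 100]
  invFun x := !₂[1 / 2 + 4 / 5 * (x 0 - 1 / 2) + 3 / 5 * (x 1 - 1 / 2), x 2 - 1 / 100,
    4 / 5 * (x 1 - 1 / 2) - 3 / 5 * (x 0 - 1 / 2)]
  left_inv x := by ext i; fin_cases i <;> simp <;> ring
  right_inv x := by ext i; fin_cases i <;> simp <;> ring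
  isometry_toFun := Isometry.of_dist_eq fun x y => by
    simp only [EuclideanSpace.dist_eq, Fin.sum_univ_three, Real.dist_eq, sq_abs]
    congr 1; simp; ring

theorem result : ∃ h > 0, ∃ h' > 0, N (pyr 2 h) ≠ N (pyr 2 h') := by
  have h1 : N (pyr 2 10) ≤ 2 := by
    refine iInf₂_le (2 : ℕ) ⟨![g.symm, IsometryEquiv.addRight !₂[0, 0, 1 / 20]],
      thickening (1 / 1000) (pyr 2 10), isOpen_thickening, self_subset_thickening (by norm_num) _,
      fun y hy => ?_⟩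
    obtain ⟨x, hx, hy⟩ := mem_thickening_iff.1 hy
    obtain ⟨a0, a1, a2, a3, a4⟩ := mem_pyr x hx
    have b : ∀ i, |y i - x i| ≤ 1 / 1000 := fun i => (PiLp.dist_apply_le y x i).trans hy.le
    have b0 := abs_le.1 (b 0)
    have b1 := abs_le.1 (b 1)
    have b2 := abs_le.1 (b 2)
    by_cases hz : y 2 ≤ 1 / 20
    · refine mem_iUnion.2 ⟨0, g y, pyr_mem _ ?_ ?_ ?_ ?_ ?_, g.symm_apply_apply y⟩ <;>
        simp [g] <;> linarith
    · refine mem_iUnion.2 ⟨1, y - !₂[0, 0, 1 / 20], pyr_mem _ ?_ ?_ ?_ ?_ ?_, by simp⟩ <;>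
        simp <;> linarith
  refine ⟨10, by norm_num, √(3 / 2), by positivity, fun e => ?_⟩
  have := three_le √(3 / 2) (by positivity) (Real.sq_sqrt (by norm_num))
  exact absurd (this.trans (e ▸ h1)) (by norm_num)

end Pool.Agent.Results.MP_90eaab_co.Depends
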